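import Mathlib
import Pool.Agent.L0h74.ET6

set_option autoImplicit false

/-!
# Large values of a bounded representation function have positive lower density

Let `m ≤ r_{A,2}(n)` for all large `n` and `r_{A,2}(n) ≤ B` for all `n`.  Then for every even `K` with
`(K - m - 1)² < 4 m` the set of `n` with `r_{A,2}(n) ≥ K + 2` has lower density at least an explicit
positive constant.  With `m = 1000`, `K = 1064`: `r_{A,2}(n) ≥ 1066` for a set of positive lower
density.
-/

namespace Pool.Agent.Results.MP_eaae5b_nt.LargeValuesDensity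

open Pool.Agent.L0h74.ET

/-- `r_{A,2}(n)`: the number of ordered pairs of elements of `A` with sum `n`. -/
noncomputable def r (A : Set ℕ) (n : ℕ) : ℕ :=
  Set.ncard {p : ℕ × ℕ | p.1 ∈ A ∧ p.2 ∈ A ∧ p.1 + p.2 = n}

/-- `4 m - (K - m - 1)²` -/
noncomputable def gam (m K : ℕ) : ℝ := 4 * (m : ℝ) - ((K : ℝ) - m - 1) ^ 2

/-- `(B + 1)² + m K` -/
noncomputable def dd (m K B : ℕ) : ℝ := ((B : ℝ) + 1) ^ 2 + m * K

/-- the explicit density `γ / (32 D log (32 D / γ))` -/
noncomputable def delta (m K B : ℕ) : ℝ :=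
  gam m K / (32 * dd m K B * Real.log (32 * dd m K B / gam m K))

lemma r_eq_rep (A : Set ℕ) (n : ℕ) : r A n = rep A n := by
  classical
  unfold r rep
  rw [← Set.ncard_coe_finset]
  congr 1
  ext p
  simp only [Set.mem_ofPred_eq, Finset.coe_filter, Finset.HasAntidiagonal.mem_antidiagonal]
  tauto

lemma count_eq (A : Set ℕ) (k N : ℕ) [DecidablePred fun n => k ≤ rep A n] :
    ((Finset.range N).filter (fun n => k ≤ rep A n)).card = Set.ncard {n : ℕ | n < N ∧ k ≤ r A n} := by
  rw [← Set.ncard_coe_finset]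
  congr 1
  ext n
  simp only [Finset.coe_filter, Set.mem_ofPred_eq, Finset.mem_range, r_eq_rep]

/-- **Main result.** -/
theorem result (A : Set ℕ) (m B K : ℕ) (hm : ∃ n₀ : ℕ, ∀ n, n₀ ≤ n → m ≤ r A n)
    (hB : ∀ n, r A n ≤ B) (hK : Even K) (hγ : 0 < gam m K) :
    0 < delta m K B ∧ ∃ N₀ : ℕ, ∀ N : ℕ, N₀ ≤ N →
      delta m K B * N ≤ (Set.ncard {n : ℕ | n < N ∧ K + 2 ≤ r A n} : ℝ) := by
  classical
  obtain ⟨n₀, hm⟩ := hm
  have hm' : ∀ n, n₀ ≤ n → m ≤ rep A n := fun n hn => by rw [← r_eq_rep]; exact hm n hn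
  have hB' : ∀ n, rep A n ≤ B := fun n => by rw [← r_eq_rep]; exact hB n
  have hγ' : ((K : ℝ) - m - 1) ^ 2 < 4 * m := by unfold gam at hγ; linarith
  obtain ⟨N₀, hN⟩ := dens A m K n₀ hK hγ' hm' B hB'
  constructor
  · have h1 : (m : ℝ) ≤ B := by exact_mod_cast (hm n₀ le_rfl).trans (hB n₀)
    have h2 : gam m K ≤ 4 * m := by
      unfold gam
      have := sq_nonneg ((K : ℝ) - m - 1)
      linarith
    have h3 : 0 < dd m K B := by unfold dd; positivity
    have h4 : gam m K ≤ 4 * dd m K B := by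
      have h5 : (0 : ℝ) ≤ m * K := by positivity
      have h6 : (0 : ℝ) ≤ B := by positivity
      unfold dd
      nlinarith
    unfold delta
    have h7 : 1 < 32 * dd m K B / gam m K := by
      rw [one_lt_div hγ]; linarith
    have := Real.log_pos h7
    positivity
  · refine ⟨N₀, fun N hNN => ?_⟩
    rw [← count_eq]
    exact hN N hNN

end Pool.Agent.Results.MP_eaae5b_nt.LargeValuesDensity
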